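import Mathlib

/-! # Ultraproduct field, coefficient functions (internal definitions) -/

namespace Pool.Agent.Helper886.PA

open scoped TensorProduct

instance primeFact (p : Nat.Primes) : Fact (p : ℕ).Prime := ⟨p.2⟩

/-- the algebraic closure of `F_p` -/
abbrev FF (p : Nat.Primes) : Type := AlgebraicClosure (ZMod (p : ℕ))

/-- the product of all the `FF p` -/
abbrev RR : Type := ∀ p : Nat.Primes, FF p

/-- `ℂ` as an ultraproduct of the fields `FF p`. -/
structure UP where
  U : Ultrafilter Nat.Primes
  π : RR →+* ℂ
  surj : Function.Surjective π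
  eq_iff : ∀ x y : RR, π x = π y ↔ ∀ᶠ p in (U : Filter Nat.Primes), x p = y p

/-- matrix coefficient of a sequence of locally constant representations over the `FF p` -/
def IsCoef (u : UP) {G : Type} [Group G] [TopologicalSpace G] (g : G → ℂ) : Prop :=
  ∃ (ι : Type) (_ : Fintype ι) (_ : DecidableEq ι)
    (M : ∀ p : Nat.Primes, G →* Matrix ι ι (FF p)) (a b : ∀ p : Nat.Primes, ι → FF p),
    (∀ p, IsLocallyConstant (M p)) ∧
      ∀ x, g x = u.π (fun p => dotProduct (a p) ((M p x).mulVec (b p)))

/-- `j : Γ → G` behaves like the map to the profinite completion -/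
structure ProfMap {Γ G : Type} [Group Γ] [Group G] [TopologicalSpace G] (j : Γ →* G) : Prop where
  dense : DenseRange j
  ext : ∀ (F : Type) [Monoid F] (r : Γ →* F), (Set.range r).Finite →
    ∃ R : G →* F, (∀ γ, R (j γ) = r γ) ∧ IsLocallyConstant R

end Pool.Agent.Helper886.PA
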