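import Pool.Agent.Helper886.PA.Base



namespace Pool.Agent.Helper886.PA

open scoped TensorProduct

theorem finite_range_ringHom (T : Finset ℂ) (p : Nat.Primes)
    (φ : Algebra.adjoin ℤ (T : Set ℂ) →+* FF p) : (Set.range φ).Finite := by
  classical
  let S : Set (FF p) := Set.range fun t : (T : Set ℂ) => φ ⟨t.1, Algebra.subset_adjoin t.2⟩
  have hS : S.Finite := Set.finite_range _
  have hint : ∀ x ∈ S, IsIntegral (ZMod (p : ℕ)) x := fun x _ => Algebra.IsIntegral.isIntegral x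
  have hfg : (Subalgebra.toSubmodule (Algebra.adjoin (ZMod (p : ℕ)) S)).FG :=
    fg_adjoin_of_finite hS hint
  have hMF : Module.Finite (ZMod (p : ℕ)) (Subalgebra.toSubmodule (Algebra.adjoin (ZMod (p : ℕ)) S)) :=
    Module.Finite.iff_fg.2 hfg
  have hfin : Finite (Subalgebra.toSubmodule (Algebra.adjoin (ZMod (p : ℕ)) S)) :=
    Module.finite_of_finite (ZMod (p : ℕ))
  have hB : ((Algebra.adjoin (ZMod (p : ℕ)) S : Subalgebra (ZMod (p : ℕ)) (FF p)) : Set (FF p)).Finite :=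
    Set.toFinite (Subalgebra.toSubmodule (Algebra.adjoin (ZMod (p : ℕ)) S) : Set (FF p))
  have hall : ∀ (x : ℂ) (hx : x ∈ Algebra.adjoin ℤ (T : Set ℂ)),
      φ ⟨x, hx⟩ ∈ Algebra.adjoin (ZMod (p : ℕ)) S := by
    intro x hx
    induction hx using Algebra.adjoin_induction with
    | mem x hx => exact Algebra.subset_adjoin ⟨⟨x, hx⟩, rfl⟩
    | algebraMap r =>
      have e : φ ⟨algebraMap ℤ ℂ r, (Algebra.adjoin ℤ (T : Set ℂ)).algebraMap_mem r⟩ =
          ((r : ℤ) : FF p) := by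
        have : (⟨algebraMap ℤ ℂ r, (Algebra.adjoin ℤ (T : Set ℂ)).algebraMap_mem r⟩ :
            Algebra.adjoin ℤ (T : Set ℂ)) = ((r : ℤ) : Algebra.adjoin ℤ (T : Set ℂ)) := by
          apply Subtype.ext
          simp
        rw [this, map_intCast]
      rw [e]
      exact intCast_mem _ r
    | add x y hx hy h1 h2 =>
      have : φ ⟨x + y, (Algebra.adjoin ℤ (T : Set ℂ)).add_mem hx hy⟩ = φ ⟨x, hx⟩ + φ ⟨y, hy⟩ := by
        rw [← map_add]; rfl
      rw [this]
      exact Subalgebra.add_mem _ h1 h2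
    | mul x y hx hy h1 h2 =>
      have : φ ⟨x * y, (Algebra.adjoin ℤ (T : Set ℂ)).mul_mem hx hy⟩ = φ ⟨x, hx⟩ * φ ⟨y, hy⟩ := by
        rw [← map_mul]; rfl
      rw [this]
      exact Subalgebra.mul_mem _ h1 h2
  apply hB.subset
  rintro _ ⟨⟨x, hx⟩, rfl⟩
  exact hall x hx

end Pool.Agent.Helper886.PA
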