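import Pool.Agent.Helper886.PA.Base



namespace Pool.Agent.Helper886.PA

open scoped TensorProduct

theorem lift_ring (u : UP) (T : Finset ℂ) :
    ∃ θ : ∀ p : Nat.Primes, Algebra.adjoin ℤ (T : Set ℂ) → FF p,
      (∀ᶠ p in (u.U : Filter Nat.Primes),
        ∃ φ : Algebra.adjoin ℤ (T : Set ℂ) →+* FF p, ⇑φ = θ p) ∧
      ∀ a : Algebra.adjoin ℤ (T : Set ℂ), u.π (fun p => θ p a) = (a : ℂ) := by
  classical
  choose ℓ hℓ using u.surj
  let σ : Type := {x : ℂ // x ∈ T}
  let q : MvPolynomial σ ℤ →ₐ[ℤ] ℂ := MvPolynomial.aeval (fun x : σ => (x : ℂ))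
  have hrange : Algebra.adjoin ℤ (T : Set ℂ) = q.range := by
    have h1 := Algebra.adjoin_range_eq_range_aeval ℤ (fun x : σ => (x : ℂ))
    rw [← h1]
    congr 1
    ext x
    simp [σ]
  have hsurj : ∀ a : Algebra.adjoin ℤ (T : Set ℂ), ∃ f : MvPolynomial σ ℤ, q f = (a : ℂ) := by
    intro a
    have h1 : (a : ℂ) ∈ q.range := by rw [← hrange]; exact a.2
    exact h1
  choose s hs using hsurj
  let ψ : ∀ p : Nat.Primes, MvPolynomial σ ℤ →+* FF p := fun p =>
    MvPolynomial.eval₂Hom (Int.castRingHom (FF p)) (fun x : σ => ℓ (x : ℂ) p)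
  have key : ∀ f : MvPolynomial σ ℤ, u.π (fun p => ψ p f) = q f := by
    have hcomp : u.π.comp (RingHom.pi ψ) = (q : MvPolynomial σ ℤ →+* ℂ) := by
      apply MvPolynomial.ringHom_ext
      · intro r
        have h1 : (u.π.comp (RingHom.pi ψ)).comp MvPolynomial.C =
            ((q : MvPolynomial σ ℤ →+* ℂ)).comp MvPolynomial.C := RingHom.ext_int _ _
        exact congrArg (fun h : ℤ →+* ℂ => h r) h1
      · intro x
        have h1 : (RingHom.pi ψ) (MvPolynomial.X x) = ℓ (x : ℂ) := by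
          funext p
          show ψ p (MvPolynomial.X x) = ℓ (x : ℂ) p
          simp [ψ]
        rw [RingHom.comp_apply, h1, hℓ]
        simp [q]
    intro f
    exact congrArg (fun h : MvPolynomial σ ℤ →+* ℂ => h f) hcomp
  obtain ⟨G, hG⟩ : (RingHom.ker (q : MvPolynomial σ ℤ →+* ℂ)).FG :=
    (isNoetherianRing_iff_ideal_fg _).mp inferInstance _
  have hev : ∀ᶠ p in (u.U : Filter Nat.Primes), ∀ g ∈ G, ψ p g = 0 := by
    rw [Filter.eventually_all_finset]
    intro g hg
    have h1 : g ∈ RingHom.ker (q : MvPolynomial σ ℤ →+* ℂ) := by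
      rw [← hG]; exact Ideal.subset_span hg
    have h2 : q g = 0 := h1
    have h3 : u.π (fun p => ψ p g) = u.π 0 := by rw [key, h2, map_zero]
    exact (u.eq_iff _ _).mp h3
  refine ⟨fun p a => ψ p (s a), ?_, fun a => by rw [key, hs]⟩
  filter_upwards [hev] with p hp
  have hle : RingHom.ker (q : MvPolynomial σ ℤ →+* ℂ) ≤ RingHom.ker (ψ p) := by
    rw [← hG, Ideal.span_le]
    intro g hg
    exact hp g hg
  have heq : ∀ f g : MvPolynomial σ ℤ, q f = q g → ψ p f = ψ p g := by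
    intro f g hfg
    have h1 : f - g ∈ RingHom.ker (q : MvPolynomial σ ℤ →+* ℂ) := by
      show q (f - g) = 0
      rw [map_sub, hfg, sub_self]
    have h2 : ψ p (f - g) = 0 := hle h1
    rw [map_sub] at h2
    exact sub_eq_zero.mp h2
  refine ⟨{ toFun := fun a => ψ p (s a), map_one' := ?_, map_mul' := ?_, map_zero' := ?_,
            map_add' := ?_ }, rfl⟩
  · rw [← map_one (ψ p)]
    exact heq _ _ (by rw [hs, map_one]; rfl)
  · intro a b
    rw [← map_mul (ψ p)]
    exact heq _ _ (by rw [hs, map_mul, hs, hs]; rfl)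
  · rw [← map_zero (ψ p)]
    exact heq _ _ (by rw [hs, map_zero]; rfl)
  · intro a b
    rw [← map_add (ψ p)]
    exact heq _ _ (by rw [hs, map_add, hs, hs]; rfl)

end Pool.Agent.Helper886.PA
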