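import Pool.Agent.Helper886.PA.Base
import Pool.Agent.Helper886.PA.FinRange
import Pool.Agent.Helper886.PA.LiftRing



namespace Pool.Agent.Helper886.PA

open scoped TensorProduct

-- TARGET
theorem lift_rep (u : UP) {Γ : Type} [Group Γ] [Group.FG Γ] (n : ℕ)
    (ρ : Γ →* Matrix (Fin n) (Fin n) ℂ) :
    ∃ r : ∀ p : Nat.Primes, Γ →* Matrix (Fin n) (Fin n) (FF p),
      (∀ p, (Set.range (r p)).Finite) ∧
      ∀ γ i j, u.π (fun p => r p γ i j) = ρ γ i j := by
  classical
  obtain ⟨S, hS, hSf⟩ := Monoid.fg_iff.1 (Group.fg_iff_monoid_fg.1 (inferInstance : Group.FG Γ))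
  set T : Finset ℂ := (hSf.toFinset ×ˢ (Finset.univ : Finset (Fin n × Fin n))).image
    (fun q => ρ q.1 q.2.1 q.2.2) with hT
  have hA : ∀ γ i j, ρ γ i j ∈ Algebra.adjoin ℤ (T : Set ℂ) := by
    intro γ
    have hγ : γ ∈ Submonoid.closure S := by rw [hS]; exact Submonoid.mem_top γ
    induction hγ using Submonoid.closure_induction with
    | mem x hx =>
      intro i j
      refine Algebra.subset_adjoin ?_
      rw [hT, Finset.mem_coe, Finset.mem_image]
      exact ⟨(x, i, j), Finset.mem_product.2 ⟨hSf.mem_toFinset.2 hx, Finset.mem_univ _⟩, rfl⟩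
    | one =>
      intro i j
      rw [map_one, Matrix.one_apply]
      split_ifs
      · exact one_mem _
      · exact zero_mem _
    | mul x y _ _ hx hy =>
      intro i j
      rw [map_mul, Matrix.mul_apply]
      exact sum_mem (fun k _ => mul_mem (hx i k) (hy k j))
  let ρA : Γ →* Matrix (Fin n) (Fin n) (Algebra.adjoin ℤ (T : Set ℂ)) :=
    { toFun := fun γ => Matrix.of fun i j => ⟨ρ γ i j, hA γ i j⟩
      map_one' := by
        ext i j
        show ρ 1 i j = (((1 : Matrix (Fin n) (Fin n) (Algebra.adjoin ℤ (T : Set ℂ))) i j :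
          Algebra.adjoin ℤ (T : Set ℂ)) : ℂ)
        rw [map_one, Matrix.one_apply, Matrix.one_apply]
        split_ifs <;> rfl
      map_mul' := by
        intro x y
        ext i j
        show ρ (x * y) i j = ((((Matrix.of fun i j => (⟨ρ x i j, hA x i j⟩ :
          Algebra.adjoin ℤ (T : Set ℂ))) * (Matrix.of fun i j => (⟨ρ y i j, hA y i j⟩ :
          Algebra.adjoin ℤ (T : Set ℂ)))) i j : Algebra.adjoin ℤ (T : Set ℂ)) : ℂ)
        rw [map_mul, Matrix.mul_apply, Matrix.mul_apply, AddSubmonoidClass.coe_finsetSum]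
        rfl }
  obtain ⟨θ, hφ, hθ⟩ := lift_ring u T
  let r : ∀ p : Nat.Primes, Γ →* Matrix (Fin n) (Fin n) (FF p) := fun p =>
    if h : ∃ φ : Algebra.adjoin ℤ (T : Set ℂ) →+* FF p, ⇑φ = θ p then
      (RingHom.toMonoidHom (h.choose.mapMatrix : Matrix (Fin n) (Fin n) (Algebra.adjoin ℤ (T : Set ℂ)) →+*
        Matrix (Fin n) (Fin n) (FF p))).comp ρA
    else 1
  have hr1 : ∀ p (h : ∃ φ : Algebra.adjoin ℤ (T : Set ℂ) →+* FF p, ⇑φ = θ p) γ i j,
      r p γ i j = h.choose (ρA γ i j) := by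
    intro p h γ i j
    simp only [r, dif_pos h]
    rfl
  refine ⟨r, ?_, ?_⟩
  · intro p
    by_cases h : ∃ φ : Algebra.adjoin ℤ (T : Set ℂ) →+* FF p, ⇑φ = θ p
    · have hfin := finite_range_ringHom T p h.choose
      have hfin2 : {M : Matrix (Fin n) (Fin n) (FF p) | ∀ i, M i ∈
          {f : Fin n → FF p | ∀ j, f j ∈ Set.range h.choose}}.Finite :=
        Set.Finite.pi' (fun _ => Set.Finite.pi' (fun _ => hfin))
      refine hfin2.subset ?_
      rintro _ ⟨γ, rfl⟩ i j
      exact ⟨ρA γ i j, (hr1 p h γ i j).symm⟩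
    · have : r p = 1 := by simp only [r, dif_neg h]
      rw [this]
      refine (Set.finite_singleton (1 : Matrix (Fin n) (Fin n) (FF p))).subset ?_
      rintro _ ⟨γ, rfl⟩
      rfl
  · intro γ i j
    have h1 : u.π (fun p => r p γ i j) = u.π (fun p => θ p (ρA γ i j)) := by
      rw [u.eq_iff]
      refine hφ.mono (fun p h => ?_)
      show r p γ i j = θ p (ρA γ i j)
      rw [hr1 p h, h.choose_spec]
    rw [h1, hθ]
    rfl

end Pool.Agent.Helper886.PA
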