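import Pool.Agent.Helper886.PA.Base
import Pool.Agent.Helper886.PA.LiftRep



namespace Pool.Agent.Helper886.PA

open scoped TensorProduct

theorem isCoef_comul (u : UP) {G : Type} [Group G] [TopologicalSpace G]
    (f : G → ℂ) (hf : IsCoef u f) :
    ∃ (n : ℕ) (s t : Fin n → G → ℂ), (∀ i, IsCoef u (s i)) ∧ (∀ i, IsCoef u (t i)) ∧
      ∀ x y, f (x * y) = ∑ i, s i x * t i y := by
  classical
  obtain ⟨ι, hι, hd, M, a, b, hM, hf⟩ := hf
  refine ⟨Fintype.card ι,
    fun i x => u.π (fun p => dotProduct (a p) ((M p x).mulVec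
      (Pi.single ((Fintype.equivFin ι).symm i) 1))),
    fun i x => u.π (fun p => dotProduct (Pi.single ((Fintype.equivFin ι).symm i) 1)
      ((M p x).mulVec (b p))),
    fun i => ⟨ι, hι, hd, M, a, fun p => Pi.single ((Fintype.equivFin ι).symm i) 1, hM,
      fun x => rfl⟩,
    fun i => ⟨ι, hι, hd, M, fun p => Pi.single ((Fintype.equivFin ι).symm i) 1, b, hM,
      fun x => rfl⟩, ?_⟩
  intro x y
  have h1 : ∀ p, dotProduct (a p) ((M p (x * y)).mulVec (b p)) =
      ∑ k : ι, dotProduct (a p) ((M p x).mulVec (Pi.single k 1)) *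
        dotProduct (Pi.single k 1) ((M p y).mulVec (b p)) := by
    intro p
    rw [map_mul, ← Matrix.mulVec_mulVec, Matrix.dotProduct_mulVec]
    unfold dotProduct
    refine Finset.sum_congr rfl fun k _ => ?_
    congr 1
    · have := Matrix.dotProduct_mulVec (a p) (M p x) (Pi.single k 1)
      unfold dotProduct at this
      rw [this]
      simp [Pi.single_apply]
    · simp [Pi.single_apply]
  rw [hf]
  have h2 : (fun p => dotProduct (a p) ((M p (x * y)).mulVec (b p))) =
      ∑ i : Fin (Fintype.card ι),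
        (fun p => dotProduct (a p) ((M p x).mulVec
          (Pi.single ((Fintype.equivFin ι).symm i) 1))) *
        (fun p => dotProduct (Pi.single ((Fintype.equivFin ι).symm i) 1)
          ((M p y).mulVec (b p))) := by
    funext p
    rw [h1 p, Finset.sum_apply]
    exact (Equiv.sum_comp (Fintype.equivFin ι).symm (fun k =>
      dotProduct (a p) ((M p x).mulVec (Pi.single k 1)) *
        dotProduct (Pi.single k 1) ((M p y).mulVec (b p)))).symm
  rw [h2, map_sum]
  refine Finset.sum_congr rfl fun i _ => ?_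
  rw [map_mul]

theorem coef_ext (u : UP) {Γ G : Type} [Group Γ] [Group.FG Γ] [Group G] [TopologicalSpace G]
    (j : Γ →* G) (hj : ProfMap j) (n : ℕ) (ρ : Γ →* Matrix (Fin n) (Fin n) ℂ)
    (a b : Fin n → ℂ) :
    ∃ g : G → ℂ, IsCoef u g ∧ ∀ γ, g (j γ) = dotProduct a ((ρ γ).mulVec b) := by
  classical
  obtain ⟨r, hr1, hr2⟩ := lift_rep u n ρ
  choose R hR1 hR2 using fun p => hj.ext (Matrix (Fin n) (Fin n) (FF p)) (r p) (hr1 p)
  choose a' ha' using fun i => u.surj (a i)
  choose b' hb' using fun i => u.surj (b i)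
  refine ⟨fun x => u.π (fun p => dotProduct (fun i => a' i p) ((R p x).mulVec (fun i => b' i p))),
    ⟨Fin n, inferInstance, inferInstance, R, fun p i => a' i p, fun p i => b' i p, hR2,
      fun x => rfl⟩, ?_⟩
  intro γ
  have h1 : (fun p => dotProduct (fun i => a' i p) ((R p (j γ)).mulVec (fun i => b' i p))) =
      ∑ i : Fin n, a' i * ∑ k : Fin n, (fun p => r p γ i k) * b' k := by
    funext p
    simp only [hR1, dotProduct, Matrix.mulVec, Finset.sum_apply, Pi.mul_apply]
  show u.π _ = _
  rw [h1, map_sum]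
  simp only [map_mul, map_sum, hr2, ha', hb', dotProduct, Matrix.mulVec]

end Pool.Agent.Helper886.PA
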