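import Pool.Agent.Helper886.PA.Base



namespace Pool.Agent.Helper886.PA

open scoped TensorProduct

theorem isCoef_const (u : UP) {G : Type} [Group G] [TopologicalSpace G] (c : ℂ) :
    IsCoef u (fun _ : G => c) := by
  obtain ⟨ct, hct⟩ := u.surj c
  refine ⟨Unit, inferInstance, inferInstance, fun _ => 1, fun p _ => ct p, fun _ _ => 1, ?_, ?_⟩
  · intro p
    exact IsLocallyConstant.const (1 : Matrix Unit Unit (FF p))
  · intro x
    have h : (fun p => dotProduct (fun _ : Unit => ct p)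
        ((((1 : G →* Matrix Unit Unit (FF p)) x)).mulVec (fun _ : Unit => (1 : FF p)))) = ct := by
      funext p
      rw [MonoidHom.one_apply, Matrix.one_mulVec]
      simp [dotProduct]
    show c = u.π (fun p => dotProduct (fun _ : Unit => ct p)
        ((((1 : G →* Matrix Unit Unit (FF p)) x)).mulVec (fun _ : Unit => (1 : FF p))))
    rw [h, hct]

theorem isCoef_add (u : UP) {G : Type} [Group G] [TopologicalSpace G] (f g : G → ℂ)
    (hf : IsCoef u f) (hg : IsCoef u g) : IsCoef u (f + g) := by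
  obtain ⟨ι₁, _, _, M₁, a₁, b₁, hl₁, h₁⟩ := hf
  obtain ⟨ι₂, _, _, M₂, a₂, b₂, hl₂, h₂⟩ := hg
  refine ⟨ι₁ ⊕ ι₂, inferInstance, inferInstance, fun p =>
    { toFun := fun x => Matrix.fromBlocks (M₁ p x) 0 0 (M₂ p x)
      map_one' := by rw [map_one, map_one, Matrix.fromBlocks_one]
      map_mul' := by
        intro x y
        rw [map_mul, map_mul, Matrix.fromBlocks_multiply]
        simp }, fun p => Sum.elim (a₁ p) (a₂ p), fun p => Sum.elim (b₁ p) (b₂ p), ?_, ?_⟩
  · intro p
    exact ((hl₁ p).prodMk (hl₂ p)).comp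
      (fun q : Matrix ι₁ ι₁ (FF p) × Matrix ι₂ ι₂ (FF p) => Matrix.fromBlocks q.1 0 0 q.2)
  · intro x
    rw [Pi.add_apply, h₁, h₂, ← map_add]
    congr 1
    funext p
    show dotProduct (a₁ p) ((M₁ p x).mulVec (b₁ p)) + dotProduct (a₂ p) ((M₂ p x).mulVec (b₂ p)) =
      dotProduct (Sum.elim (a₁ p) (a₂ p)) ((Matrix.fromBlocks (M₁ p x) 0 0 (M₂ p x)).mulVec
        (Sum.elim (b₁ p) (b₂ p)))
    rw [Matrix.fromBlocks_mulVec]
    simp [dotProduct, Fintype.sum_sum_type]

end Pool.Agent.Helper886.PA
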