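import Pool.Agent.Helper886.PA.Base



namespace Pool.Agent.Helper886.PA

open scoped TensorProduct

open Classical in
/-- balls with respect to a finite set -/
noncomputable def cuB {Γ : Type} [Group Γ] (S : Finset Γ) : ℕ → Finset Γ
  | 0 => {1}
  | k + 1 => cuB S k ∪ (S ×ˢ cuB S k).image (fun q => q.1 * q.2)

/-- the span of the part of the orbit coming from a ball -/
noncomputable def cuW {K : Type} [Field K] {ι : Type} [Fintype ι] [DecidableEq ι] {Γ : Type}
    [Group Γ] (S : Finset Γ) (N : Γ →* Matrix ι ι K) (v : ι → K) (k : ℕ) :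
    Submodule K (ι → K) :=
  Submodule.span K ((fun γ => (N γ).mulVec v) '' (cuB S k : Set Γ))

theorem cuB_succ {Γ : Type} [Group Γ] (S : Finset Γ) (k : ℕ) : cuB S k ⊆ cuB S (k + 1) := by
  classical
  rw [cuB]
  exact Finset.subset_union_left

theorem cuB_mono {Γ : Type} [Group Γ] (S : Finset Γ) {k l : ℕ} (h : k ≤ l) :
    cuB S k ⊆ cuB S l := by
  induction h with
  | refl => exact subset_rfl
  | step _ ih => exact ih.trans (cuB_succ S _)

theorem cuB_one {Γ : Type} [Group Γ] (S : Finset Γ) (k : ℕ) : (1 : Γ) ∈ cuB S k := by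
  apply cuB_mono S (Nat.zero_le k)
  simp [cuB]

theorem cuB_mul {Γ : Type} [Group Γ] (S : Finset Γ) (k : ℕ) (s γ : Γ) (hs : s ∈ S)
    (hγ : γ ∈ cuB S k) : s * γ ∈ cuB S (k + 1) := by
  classical
  rw [cuB]
  apply Finset.mem_union_right
  exact Finset.mem_image.mpr ⟨(s, γ), Finset.mem_product.mpr ⟨hs, hγ⟩, rfl⟩

section
variable {K : Type} [Field K] {ι : Type} [Fintype ι] [DecidableEq ι] {Γ : Type} [Group Γ]

theorem cuW_mono (S : Finset Γ) (N : Γ →* Matrix ι ι K) (v : ι → K) {k l : ℕ} (h : k ≤ l) :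
    cuW S N v k ≤ cuW S N v l :=
  Submodule.span_mono (Set.image_mono (Finset.coe_subset.mpr (cuB_mono S h)))

theorem cuW_step (S : Finset Γ) (N : Γ →* Matrix ι ι K) (v : ι → K) (k : ℕ) (s : Γ) (hs : s ∈ S)
    (w : ι → K) (hw : w ∈ cuW S N v k) : (N s).mulVec w ∈ cuW S N v (k + 1) := by
  unfold cuW at hw
  induction hw using Submodule.span_induction with
  | mem x hx =>
    obtain ⟨γ, hγ, rfl⟩ := hx
    have h1 : (N s).mulVec ((N γ).mulVec v) = (N (s * γ)).mulVec v := by
      rw [map_mul, Matrix.mulVec_mulVec]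
    simp only
    rw [h1]
    exact Submodule.subset_span ⟨s * γ, cuB_mul S k s γ hs hγ, rfl⟩
  | zero => rw [Matrix.mulVec_zero]; exact Submodule.zero_mem _
  | add x y _ _ hx hy => rw [Matrix.mulVec_add]; exact Submodule.add_mem _ hx hy
  | smul c x _ hx => rw [Matrix.mulVec_smul]; exact Submodule.smul_mem _ c hx

theorem cuW_stab (S : Finset Γ) (N : Γ →* Matrix ι ι K) (v : ι → K) :
    ∃ k ≤ Fintype.card ι, cuW S N v (k + 1) = cuW S N v k := by
  by_contra hcon
  push Not at hcon
  have h : ∀ k, k ≤ Fintype.card ι + 1 → k ≤ Module.finrank K (cuW S N v k) := by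
    intro k
    induction k with
    | zero => intro _; exact Nat.zero_le _
    | succ k ih =>
      intro hk
      have h1 := ih (by omega)
      have h2 : cuW S N v k < cuW S N v (k + 1) :=
        lt_of_le_of_ne (cuW_mono S N v (Nat.le_succ k)) (Ne.symm (hcon k (by omega)))
      have h3 := Submodule.finrank_lt_finrank_of_lt h2
      omega
  have h1 := h (Fintype.card ι + 1) le_rfl
  have h2 : Module.finrank K (cuW S N v (Fintype.card ι + 1)) ≤ Module.finrank K (ι → K) :=
    Submodule.finrank_le _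
  rw [Module.finrank_fintype_fun_eq_card] at h2
  omega

theorem cu_key (S : Finset Γ) (hS : Submonoid.closure (S : Set Γ) = ⊤) (N : Γ →* Matrix ι ι K)
    (c v : ι → K) (h : ∀ γ ∈ cuB S (Fintype.card ι), dotProduct c ((N γ).mulVec v) = 0) (γ : Γ) :
    dotProduct c ((N γ).mulVec v) = 0 := by
  obtain ⟨k, hk, hkk⟩ := cuW_stab S N v
  have hinv : ∀ γ : Γ, ∀ w ∈ cuW S N v k, (N γ).mulVec w ∈ cuW S N v k := by
    intro γ
    have hγ : γ ∈ Submonoid.closure (S : Set Γ) := by rw [hS]; trivial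
    induction hγ using Submonoid.closure_induction with
    | mem s hs =>
      intro w hw
      rw [← hkk]
      exact cuW_step S N v k s hs w hw
    | one => intro w hw; rw [map_one, Matrix.one_mulVec]; exact hw
    | mul x y _ _ hx hy =>
      intro w hw
      rw [map_mul, ← Matrix.mulVec_mulVec]
      exact hx _ (hy _ hw)
  have hv : v ∈ cuW S N v k := by
    have : (N 1).mulVec v ∈ cuW S N v k := Submodule.subset_span ⟨1, cuB_one S k, rfl⟩
    rwa [map_one, Matrix.one_mulVec] at this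
  have h1 : (N γ).mulVec v ∈ cuW S N v (Fintype.card ι) := cuW_mono S N v hk (hinv γ v hv)
  unfold cuW at h1
  generalize (N γ).mulVec v = y at h1 ⊢
  induction h1 using Submodule.span_induction with
  | mem x hx =>
    obtain ⟨δ, hδ, rfl⟩ := hx
    exact h δ hδ
  | zero => exact dotProduct_zero _
  | add x y _ _ hx hy => rw [dotProduct_add, hx, hy, add_zero]
  | smul r x _ hx => rw [dotProduct_smul, hx, smul_zero]

end

theorem coef_unique (u : UP) {Γ G : Type} [Group Γ] [Group.FG Γ] [Group G] [TopologicalSpace G]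
    (j : Γ →* G) (hj : DenseRange j) (g : G → ℂ) (hg : IsCoef u g) (h0 : ∀ γ, g (j γ) = 0) :
    g = 0 := by
  obtain ⟨ι, hι, hdec, M, a, b, hM, hgx⟩ := hg
  have hfg : Monoid.FG Γ := Group.fg_iff_monoid_fg.mp inferInstance
  obtain ⟨S, hS⟩ := (Monoid.FG.fg_top : (⊤ : Submonoid Γ).FG)
  have hfin : ∀ᶠ p in (u.U : Filter Nat.Primes), ∀ γ ∈ cuB S (Fintype.card ι),
      dotProduct (a p) ((M p (j γ)).mulVec (b p)) = 0 := by
    rw [Filter.eventually_all_finset]
    intro γ _
    have h1 := h0 γ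
    rw [hgx, ← map_zero u.π, u.eq_iff] at h1
    exact h1
  funext x
  rw [hgx, Pi.zero_apply, ← map_zero u.π, u.eq_iff]
  filter_upwards [hfin] with p hp
  have hall := cu_key S hS ((M p).comp j) (a p) (b p) hp
  have hopen : IsOpen {y | M p y = M p x} := (hM p).isOpen_fiber (M p x)
  obtain ⟨γ, hγ⟩ := hj.exists_mem_open hopen ⟨x, rfl⟩
  have h2 : M p (j γ) = M p x := hγ
  have h3 := hall γ
  rw [MonoidHom.comp_apply, h2] at h3
  exact h3


end Pool.Agent.Helper886.PA

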