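import Pool.Agent.Helper886.PA.Base



namespace Pool.Agent.Helper886.PA

open scoped TensorProduct

theorem up_char (U : Ultrafilter Nat.Primes) (hU : (U : Filter Nat.Primes) ≤ Filter.cofinite)
    (K : Type) [Field K] (π : RR →+* K)
    (heq : ∀ x y : RR, π x = π y ↔ ∀ᶠ p in (U : Filter Nat.Primes), x p = y p) :
    CharZero K := by
  refine charZero_of_inj_zero (fun n hn => ?_)
  by_contra hne
  have h1 : π (n : RR) = π 0 := by
    rw [map_natCast, hn, map_zero]
  have h2 := (heq _ _).1 h1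
  have h3 : ∀ᶠ p : Nat.Primes in (U : Filter Nat.Primes), (p : ℕ) ∣ n := by
    filter_upwards [h2] with p hp
    haveI : CharP (ZMod (p : ℕ)) (p : ℕ) := ZMod.charP _
    haveI : CharP (FF p) (p : ℕ) :=
      charP_of_injective_algebraMap (algebraMap (ZMod (p : ℕ)) (FF p)).injective (p : ℕ)
    rw [← CharP.cast_eq_zero_iff (FF p) (p : ℕ) n]
    simpa using hp
  have hfin : {p : Nat.Primes | (p : ℕ) ∣ n}.Finite := by
    have hf : (Set.Iic n).Finite := Set.finite_Iic n
    refine Set.Finite.of_finite_image (f := fun p : Nat.Primes => (p : ℕ)) (hf.subset ?_) ?_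
    · rintro _ ⟨p, hp, rfl⟩
      exact Nat.le_of_dvd (Nat.pos_of_ne_zero hne) hp
    · intro a _ b _ hab
      exact Subtype.ext hab
  have h4 : ∀ᶠ p : Nat.Primes in (U : Filter Nat.Primes), ¬ (p : ℕ) ∣ n :=
    hU hfin.compl_mem_cofinite
  have h5 : ∀ᶠ p in (U : Filter Nat.Primes), False := by
    filter_upwards [h3, h4] with p hp hq
    exact hq hp
  exact (Filter.eventually_false_iff_eq_bot.1 h5 |> fun h => U.neBot.ne h)

end Pool.Agent.Helper886.PA
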