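import Pool.Agent.Helper886.PA.Base



namespace Pool.Agent.Helper886.PA

open scoped TensorProduct

theorem zz_root {F : Type*} [Field F] [IsAlgClosed F] (n : ℕ) (hn : n ≠ 0) (c : ℕ → F) :
    ∃ z : F, z ^ n + ∑ i ∈ Finset.range n, c i * z ^ i = 0 := by
  have hdeg : (∑ i ∈ Finset.range n, Polynomial.C (c i) * Polynomial.X ^ i :
      Polynomial F).degree < n := by
    rw [Polynomial.degree_lt_iff_coeff_zero]
    intro m hm
    rw [Polynomial.finsetSum_coeff]
    refine Finset.sum_eq_zero fun i hi => ?_
    rw [Polynomial.coeff_C_mul_X_pow, if_neg]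
    have := Finset.mem_range.1 hi
    omega
  have hd : (Polynomial.X ^ n + ∑ i ∈ Finset.range n, Polynomial.C (c i) * Polynomial.X ^ i :
      Polynomial F).degree = n := by
    rw [Polynomial.degree_add_eq_left_of_degree_lt (by rwa [Polynomial.degree_X_pow]),
      Polynomial.degree_X_pow]
  obtain ⟨z, hz⟩ := IsAlgClosed.exists_root
    (Polynomial.X ^ n + ∑ i ∈ Finset.range n, Polynomial.C (c i) * Polynomial.X ^ i :
      Polynomial F) (by rw [hd]; exact_mod_cast hn)
  refine ⟨z, ?_⟩
  rw [Polynomial.IsRoot.def, Polynomial.eval_add, Polynomial.eval_pow, Polynomial.eval_X,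
    Polynomial.eval_finsetSum] at hz
  simpa using hz

theorem up_closed (U : Ultrafilter Nat.Primes) (K : Type) [Field K] (π : RR →+* K)
    (hs : Function.Surjective π)
    (heq : ∀ x y : RR, π x = π y ↔ ∀ᶠ p in (U : Filter Nat.Primes), x p = y p) :
    IsAlgClosed K := by
  apply IsAlgClosed.of_exists_root
  intro f hf hirr
  have hn : f.natDegree ≠ 0 := hirr.natDegree_pos.ne'
  choose c hc using fun i => hs (f.coeff i)
  choose z hz using fun p : Nat.Primes => zz_root (F := FF p) f.natDegree hn (fun i => c i p)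
  have hzz : (z : RR) ^ f.natDegree + ∑ i ∈ Finset.range f.natDegree, c i * (z : RR) ^ i = 0 := by
    funext p
    rw [Pi.add_apply, Finset.sum_apply]
    exact hz p
  refine ⟨π z, ?_⟩
  rw [Polynomial.eval_eq_sum_range, Finset.sum_range_succ, hf.coeff_natDegree, one_mul]
  have h1 := congrArg π hzz
  rw [map_add, map_sum, map_zero, map_pow] at h1
  rw [← h1, add_comm]
  congr 1
  refine Finset.sum_congr rfl fun i _ => ?_
  rw [map_mul, map_pow, hc]

end Pool.Agent.Helper886.PA
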