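import Pool.Agent.Helper886.PA.Base



namespace Pool.Agent.Helper886.PA

open scoped TensorProduct

/-- sequences that vanish almost everywhere -/
def nullIdeal (U : Ultrafilter Nat.Primes) : Ideal RR where
  carrier := {x | ∀ᶠ p in (U : Filter Nat.Primes), x p = 0}
  add_mem' := by
    intro a b ha hb
    filter_upwards [ha, hb] with p h1 h2
    simp [h1, h2]
  zero_mem' := by simp
  smul_mem' := by
    intro c x hx
    filter_upwards [hx] with p h1
    simp [h1]

theorem up_max (U : Ultrafilter Nat.Primes) : (nullIdeal U).IsMaximal := by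
  rw [Ideal.isMaximal_iff]
  constructor
  · intro h
    have h1 : ∀ᶠ p in (U : Filter Nat.Primes), (1 : RR) p = 0 := h
    obtain ⟨p, hp⟩ := h1.exists
    exact one_ne_zero hp
  · intro J x hIJ hx hxJ
    have hx' : ¬ ∀ᶠ p in (U : Filter Nat.Primes), x p = 0 := hx
    have h1 : ∀ᶠ p in (U : Filter Nat.Primes), x p ≠ 0 := Ultrafilter.eventually_not.2 hx'
    have h2 : (1 : RR) - (fun p => (x p)⁻¹) * x ∈ nullIdeal U := by
      show ∀ᶠ p in (U : Filter Nat.Primes), ((1 : RR) - (fun p => (x p)⁻¹) * x) p = 0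
      filter_upwards [h1] with p hp
      show (1 : FF p) - (x p)⁻¹ * x p = 0
      rw [inv_mul_cancel₀ hp, sub_self]
    have h3 : (1 : RR) = ((1 : RR) - (fun p => (x p)⁻¹) * x) + (fun p => (x p)⁻¹) * x := by
      rw [sub_add_cancel]
    rw [h3]
    exact J.add_mem (hIJ h2) (J.mul_mem_left _ hxJ)

theorem exists_field (U : Ultrafilter Nat.Primes) :
    ∃ (K : Type) (_ : Field K) (π : RR →+* K), Function.Surjective π ∧
      ∀ x y : RR, π x = π y ↔ ∀ᶠ p in (U : Filter Nat.Primes), x p = y p := by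
  have := up_max U
  refine ⟨RR ⧸ nullIdeal U, Ideal.Quotient.field (nullIdeal U), Ideal.Quotient.mk (nullIdeal U),
    Ideal.Quotient.mk_surjective, ?_⟩
  intro x y
  rw [Ideal.Quotient.eq]
  show (∀ᶠ p in (U : Filter Nat.Primes), (x - y) p = 0) ↔ _
  constructor
  · intro h
    filter_upwards [h] with p hp
    exact sub_eq_zero.1 hp
  · intro h
    filter_upwards [h] with p hp
    exact sub_eq_zero.2 hp

end Pool.Agent.Helper886.PA
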