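import Pool.Agent.Helper886.PA.UpCard
import Pool.Agent.Helper886.PA.UpChar
import Pool.Agent.Helper886.PA.UpClosed
import Pool.Agent.Helper886.PA.UpMax

/-! # `ℂ` is an ultraproduct of the fields `FF p` -/

namespace Pool.Agent.Helper886.PA

theorem exists_up : Nonempty UP := by
  haveI : Infinite Nat.Primes := inferInstance
  let U : Ultrafilter Nat.Primes := Filter.hyperfilter Nat.Primes
  have hU : (U : Filter Nat.Primes) ≤ Filter.cofinite := Filter.hyperfilter_le_cofinite
  obtain ⟨K, hK, π, hs, heq⟩ := exists_field U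
  haveI : IsAlgClosed K := up_closed U K π hs heq
  haveI : CharZero K := up_char U hU K π heq
  have hc : Cardinal.mk K = Cardinal.continuum := up_card U hU K π hs heq
  have hKC : Nonempty (K ≃ ℂ) := by
    rw [← Cardinal.eq, hc, Cardinal.mk_complex]
  have hlt : Cardinal.aleph0 < Cardinal.mk K := by
    rw [hc]
    exact Cardinal.aleph0_lt_continuum
  obtain ⟨e⟩ := IsAlgClosed.ringEquiv_of_equiv_of_charZero hlt hKC
  refine ⟨⟨U, (e : K →+* ℂ).comp π, ?_, ?_⟩⟩
  · intro x
    obtain ⟨y, hy⟩ := hs (e.symm x)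
    refine ⟨y, ?_⟩
    rw [RingHom.comp_apply, hy]
    simp
  · intro x y
    rw [← heq x y, RingHom.comp_apply, RingHom.comp_apply]
    exact e.injective.eq_iff

end Pool.Agent.Helper886.PA
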