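import Pool.Agent.Helper886.PA.Base



namespace Pool.Agent.Helper886.PA

open scoped TensorProduct

open CategoryTheory

/-- projection of the profinite completion to a finite quotient -/
noncomputable def qproj (Γ : Type) [Group Γ] (H : FiniteIndexNormalSubgroup (GrpCat.of Γ)) :
    ProfiniteGrp.ProfiniteCompletion.completion (GrpCat.of Γ) →* (Γ ⧸ H.toSubgroup) where
  toFun x := x.1 H
  map_one' := rfl
  map_mul' _ _ := rfl

theorem qproj_lc (Γ : Type) [Group Γ] (H : FiniteIndexNormalSubgroup (GrpCat.of Γ)) :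
    IsLocallyConstant (qproj Γ H) := by
  intro s
  have h1 : Continuous (fun x : ProfiniteGrp.ProfiniteCompletion.completion (GrpCat.of Γ) =>
      x.1 H) := (continuous_apply H).comp continuous_subtype_val
  exact h1.isOpen_preimage s (@isOpen_discrete _ ⊥ (discreteTopology_bot _) s)

theorem profMap_eta (Γ : Type) [Group Γ] :
    ProfMap (ProfiniteGrp.ProfiniteCompletion.eta (GrpCat.of Γ)).hom := by
  refine ⟨ProfiniteGrp.ProfiniteCompletion.denseRange (GrpCat.of Γ), ?_⟩
  intro F _ r hr
  have hfin : Finite (MonoidHom.toHomUnits r).range := by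
    have h1 : ((fun u : Fˣ => (u : F)) '' (Set.range (MonoidHom.toHomUnits r))).Finite := by
      apply hr.subset
      rintro _ ⟨_, ⟨γ, rfl⟩, rfl⟩
      exact ⟨γ, rfl⟩
    have h2 : (Set.range (MonoidHom.toHomUnits r)).Finite :=
      h1.of_finite_image (fun x _ y _ h => Units.ext h)
    exact h2.to_subtype
  have hfi : (MonoidHom.toHomUnits r).ker.FiniteIndex := Subgroup.finiteIndex_ker _
  let H : FiniteIndexNormalSubgroup (GrpCat.of Γ) :=
    { toSubgroup := (MonoidHom.toHomUnits r).ker
      isNormal' := inferInstance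
      isFiniteIndex' := hfi }
  refine ⟨(Units.coeHom F).comp
    ((QuotientGroup.kerLift (MonoidHom.toHomUnits r)).comp (qproj Γ H)), fun γ => ?_, ?_⟩
  · rfl
  · exact (qproj_lc Γ H).comp
      (fun x => ((QuotientGroup.kerLift (MonoidHom.toHomUnits r) x : Fˣ) : F))

theorem profMap_comp {Γ G G' : Type} [Group Γ] [Group G] [TopologicalSpace G] [Group G']
    [TopologicalSpace G'] (j : Γ →* G) (hj : ProfMap j) (e : G ≃ₜ* G') :
    ProfMap ((e : G →* G').comp j) := by
  refine ⟨?_, ?_⟩
  · exact DenseRange.comp (g := e) (f := j) e.surjective.denseRange hj.dense e.continuous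
  · intro F _ r hr
    obtain ⟨R, hR1, hR2⟩ := hj.ext F r hr
    refine ⟨R.comp (e.symm : G' →* G), fun γ => ?_, ?_⟩
    · show R (e.symm (e (j γ))) = r γ
      rw [e.symm_apply_apply, hR1]
    · exact hR2.comp_continuous e.symm.continuous

end Pool.Agent.Helper886.PA
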