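import Pool.Agent.Helper886.PA.Univ
import Pool.Agent.Helper886.PA.CoefConst
import Pool.Agent.Helper886.PA.CoefMul
import Pool.Agent.Helper886.PA.CoefComul
import Pool.Agent.Helper886.PA.CoefUnique
import Pool.Agent.Helper886.PA.ExistsRep
import Pool.Agent.Helper886.PA.ExistsUp
import Pool.Agent.Helper886.PA.ProfEta

/-! # The profinite completion determines the proalgebraic completion -/

namespace Pool.Agent.Helper886.PA

open scoped TensorProduct

section

variable (u : UP) (G : Type) [Group G] [TopologicalSpace G]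

/-- the algebra of coefficient functions on `G` -/
noncomputable def CA : Subalgebra ℂ (G → ℂ) where
  carrier := {g | IsCoef u g}
  mul_mem' := fun {_ _} ha hb => isCoef_mul u _ _ ha hb
  add_mem' := fun {_ _} ha hb => isCoef_add u _ _ ha hb
  algebraMap_mem' := fun c => isCoef_const u c

/-- evaluation at a point of `G` -/
noncomputable def cev (x : G) : CA u G →ₐ[ℂ] ℂ :=
  (Pi.evalAlgHom ℂ (fun _ : G => ℂ) x).comp (CA u G).val

theorem cev_apply (x : G) (a : CA u G) : cev u G x a = (a : G → ℂ) x := rfl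

theorem cfh [IsTopologicalGroup G] : IsFH (cev u G) where
  sep := by
    intro a ha
    apply Subtype.ext
    funext x
    exact ha x
  comul := by
    intro a
    obtain ⟨n, s, t, hs, ht, h⟩ := isCoef_comul u (a : G → ℂ) a.2
    refine ⟨∑ i, (⟨s i, hs i⟩ : CA u G) ⊗ₜ[ℂ] (⟨t i, ht i⟩ : CA u G), fun x y => ?_⟩
    rw [map_sum, cev_apply, h]
    refine Finset.sum_congr rfl fun i _ => ?_
    rw [pr_tmul]
    rfl
  inv := by
    intro a
    exact ⟨⟨_, isCoef_inv u (a : G → ℂ) a.2⟩, fun x => rfl⟩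

theorem cpc [IsTopologicalGroup G] {Γ : Type} [Group Γ] [Group.FG Γ] (j : Γ →* G)
    (hj : ProfMap j) :
    @IsProalgebraicCompletion Γ _ (CA u G) _ (cfh u G).hopf (fun γ => cev u G (j γ)) := by
  apply isPC (cfh u G) j
  · intro a ha
    apply Subtype.ext
    exact coef_unique u j hj.dense (a : G → ℂ) a.2 fun γ => ha γ
  · intro f n s t hf
    obtain ⟨m, ρ, a, b, hρ⟩ := exists_rep f n s t hf
    obtain ⟨g, hg, hgj⟩ := coef_ext u j hj m ρ a b
    refine ⟨⟨g, hg⟩, fun γ => ?_⟩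
    rw [hρ]
    exact hgj γ

end

/-- every finitely generated group has a proalgebraic completion -/
theorem exists_completion (Γ : Type) [Group Γ] [Group.FG Γ] :
    ∃ (H : Type) (_ : CommRing H) (_ : HopfAlgebra ℂ H) (i : Γ → Pt H),
      IsProalgebraicCompletion Γ H i := by
  obtain ⟨u⟩ := exists_up
  exact ⟨CA u (Prof Γ), inferInstance, (cfh u (Prof Γ)).hopf, _,
    cpc u (Prof Γ) _ (profMap_eta Γ)⟩

theorem main (Γ Λ : Type) [Group Γ] [Group Λ] [Group.FG Γ] [Group.FG Λ]
    (h : ProfinitelyIsomorphic Γ Λ) : ProalgebraicallyIsomorphic Γ Λ := by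
  obtain ⟨e⟩ := h
  obtain ⟨u⟩ := exists_up
  exact ⟨CA u (Prof Λ), inferInstance, (cfh u (Prof Λ)).hopf, _,
    CA u (Prof Λ), inferInstance, (cfh u (Prof Λ)).hopf, _,
    cpc u (Prof Λ) _ (profMap_comp _ (profMap_eta Γ) e),
    cpc u (Prof Λ) _ (profMap_eta Λ), ⟨BialgEquiv.refl ℂ _⟩⟩

theorem rigid (Λ : Type) [Group Λ] [Group.FG Λ] [Group.ResiduallyFinite Λ]
    (h : ProalgebraicallyRigid Λ) : ProfinitelyRigid Λ :=
  fun Γ _ _ _ hΓ => h Γ (main Γ Λ hΓ)

end Pool.Agent.Helper886.PA
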