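import Pool.Agent.Helper886.PA.Base



namespace Pool.Agent.Helper886.PA

open scoped TensorProduct

theorem up_card_aux_countable (p : Nat.Primes) : Countable (FF p) := by
  have h := Algebra.IsAlgebraic.cardinalMk_le_max (ZMod (p : ℕ)) (FF p)
  have h2 : Cardinal.mk (ZMod (p : ℕ)) ≤ Cardinal.aleph0 := Cardinal.mk_le_aleph0_iff.2 inferInstance
  exact Cardinal.mk_le_aleph0_iff.1 (h.trans (max_le h2 le_rfl))

theorem up_card_aux_infinite (p : Nat.Primes) : Infinite (FF p) := IsAlgClosed.instInfinite

theorem up_card (U : Ultrafilter Nat.Primes) (hU : (U : Filter Nat.Primes) ≤ Filter.cofinite)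
    (K : Type) [Field K] (π : RR →+* K) (hs : Function.Surjective π)
    (heq : ∀ x y : RR, π x = π y ↔ ∀ᶠ p in (U : Filter Nat.Primes), x p = y p) :
    Cardinal.mk K = Cardinal.continuum := by
  classical
  have hcount := up_card_aux_countable
  have hinf := up_card_aux_infinite
  apply le_antisymm
  · have h1 : Cardinal.mk K ≤ Cardinal.mk RR := Cardinal.mk_le_of_surjective hs
    refine h1.trans ?_
    have h2 : ∀ p : Nat.Primes, ∃ e : FF p → ℕ, Function.Injective e := fun p => by
      haveI := hcount p
      exact exists_injective_nat (FF p)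
    choose e he using h2
    have h3 : Function.Injective (fun (x : RR) (p : Nat.Primes) => e p (x p)) := by
      intro x y hxy
      funext p
      exact he p (congrFun hxy p)
    have h4 : Cardinal.mk RR ≤ Cardinal.mk (Nat.Primes → ℕ) := Cardinal.mk_le_of_injective h3
    refine h4.trans ?_
    have h5 : Cardinal.mk (Nat.Primes → ℕ) = Cardinal.mk ℕ ^ Cardinal.mk Nat.Primes := by
      simp
    rw [h5, Cardinal.mk_nat]
    have h6 : Cardinal.mk Nat.Primes = Cardinal.aleph0 := Cardinal.mk_eq_aleph0 _
    rw [h6, Cardinal.aleph0_power_aleph0]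
  · have e : ∀ p : Nat.Primes, ℕ ↪ FF p := fun p => by
      haveI := hinf p
      exact Infinite.natEmbedding (FF p)
    let F : (ℕ → Bool) → RR := fun s p => e p (Encodable.encode (List.ofFn (fun i : Fin (p : ℕ) => s i)))
    have hF : Function.Injective (fun s : ℕ → Bool => π (F s)) := by
      intro s t hst
      by_contra hne
      have h1 : ∃ k, s k ≠ t k := by
        by_contra hcon
        push Not at hcon
        exact hne (funext hcon)
      obtain ⟨k, hk⟩ := h1
      have h2 : ∀ᶠ p in (U : Filter Nat.Primes), F s p = F t p := (heq _ _).1 hst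
      have h3 : ∀ᶠ p : Nat.Primes in (Filter.cofinite : Filter Nat.Primes), k < (p : ℕ) := by
        rw [Filter.eventually_cofinite]
        refine Set.Finite.subset ((Set.finite_Iic k).preimage (f := fun p : Nat.Primes => (p : ℕ)) ?_) ?_
        · exact Subtype.val_injective.injOn
        · intro p hp
          simpa using hp
      have h4 : ∀ᶠ p : Nat.Primes in (U : Filter Nat.Primes), k < (p : ℕ) := hU h3
      obtain ⟨p, hp1, hp2⟩ := (h2.and h4).exists
      have h5 : Encodable.encode (List.ofFn (fun i : Fin (p : ℕ) => s i)) =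
          Encodable.encode (List.ofFn (fun i : Fin (p : ℕ) => t i)) := (e p).injective hp1
      have h6 := List.ofFn_injective (Encodable.encode_injective h5)
      exact hk (congrFun h6 ⟨k, hp2⟩)
    have h7 := Cardinal.mk_le_of_injective hF
    simpa using h7

end Pool.Agent.Helper886.PA
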